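import Mathlib
import Pool.Agent.Helper996.DowkerSpace

/-!
# MP_1bc7d4_lc: a strong Sierpinski set gives a Dowker space of size `ℵ₁`
-/

namespace Pool.Agent.Results.MP_1bc7d4_lc.StrongSierpinskiDowker

open Cardinal MeasureTheory Topology

/-- A strong Sierpinski set: an uncountable set of reals such that, for every `n`, no uncountable
family of injective `n`-tuples of its elements with pairwise disjoint ranges is Lebesgue null in
`ℝ^n`. For `n = 1` this says that every uncountable subset is non-null, i.e. the set is a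
Sierpinski set. -/
def StrongSierpinski (S : Set ℝ) : Prop :=
  ¬ S.Countable ∧ ∀ (n : ℕ) (F : Set (Fin n → ℝ)), ¬ F.Countable →
    (∀ t ∈ F, ∀ i, t i ∈ S) → (∀ t ∈ F, Function.Injective t) →
    F.PairwiseDisjoint Set.range → volume F ≠ 0

/-- Countable paracompactness: every countable open cover has a locally finite open refinement
(again a cover). -/
def CountablyParacompact (X : Type) [TopologicalSpace X] : Prop :=
  ∀ U : ℕ → Set X, (∀ n, IsOpen (U n)) → (⋃ n, U n) = Set.univ →
    ∃ (ι : Type) (V : ι → Set X), (∀ i, IsOpen (V i)) ∧ (⋃ i, V i) = Set.univ ∧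
      LocallyFinite V ∧ ∀ i, ∃ n, V i ⊆ U n

/-- If there is a strong Sierpinski set, then there is a Dowker space of size `ℵ₁`. The space is
moreover locally countable with a basis of clopen sets, and a countable union of discrete
subspaces. -/
theorem result (h : ∃ S : Set ℝ, StrongSierpinski S) :
    ∃ (X : Type) (_ : TopologicalSpace X), #X = ℵ₁ ∧
      T2Space X ∧ NormalSpace X ∧ ¬ CountablyParacompact X ∧
      (∀ (x : X) (U : Set X), IsOpen U → x ∈ U →
        ∃ V : Set X, IsClopen V ∧ V.Countable ∧ x ∈ V ∧ V ⊆ U) ∧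
      (∃ L : ℕ → Set X, (∀ n, DiscreteTopology (L n)) ∧ (⋃ n, L n) = Set.univ) := by
  classical
  obtain ⟨S, hS⟩ := h
  have hS' : Helper996.Dowker.StrongSierpinski S := hS
  let W : Type := (ℵ₁ : Cardinal.{0}).ord.ToType
  have hW : #W = ℵ₁ := by simp [W]
  have hc : ∀ a : W, (Set.Iio a).Countable := fun a =>
    (Cardinal.countable_iff_lt_aleph_one _).2 (Cardinal.mk_Iio_ord_toType a)
  have hu : ¬ (Set.univ : Set W).Countable := by
    rw [Cardinal.countable_iff_lt_aleph_one, Cardinal.mk_univ, hW]
    exact lt_irrefl _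
  have hWN : #(W × ℕ) = ℵ₁ := by
    rw [Cardinal.mk_prod, hW]
    simp [Cardinal.aleph0_le_aleph, Cardinal.mul_aleph0_eq]
  have hle : #(W × ℕ) ≤ #S := by
    rw [hWN]
    have h1 : ¬ (#S < ℵ₁) := fun h2 => hS.1 ((Cardinal.countable_iff_lt_aleph_one _).2 h2)
    exact not_lt.1 h1
  obtain ⟨f⟩ := hle
  let r : W × ℕ → ℝ := fun x => (f x : ℝ)
  have hr : Function.Injective r := fun x y hxy => f.injective (Subtype.ext hxy)
  have hrS : ∀ x, r x ∈ S := fun x => (f x).2
  obtain ⟨e, he1, he2⟩ := Helper996.Dowker.exists_coherent hc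
  let τ : TopologicalSpace (W × ℕ) :=
    TopologicalSpace.induced (Helper996.Dowker.enc e r) inferInstance
  have hφ : IsInducing (Helper996.Dowker.enc e r) := ⟨rfl⟩
  exact ⟨W × ℕ, τ, hWN, Helper996.Dowker.conclusion hc hu hS' r hr hrS e he1 he2 hφ⟩

end Pool.Agent.Results.MP_1bc7d4_lc.StrongSierpinskiDowker
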